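import Pool.Agent.Lib.P6a08f9.Final

/-!
# Nilpotent Lie groups have super-Euclidean filling functions

Every non-abelian, connected, simply connected nilpotent Lie group with a left-invariant Riemannian
metric has a super-Euclidean filling function `FV^{k+1}` for some `1 ≤ k ≤ dim G - 1`.

Idea of the proof.  Suppose that all filling functions are at most Euclidean.  Then one builds,
skeleton by skeleton, chains `S g` spanned by the tuples `g` of points at distance at most `t`
(measured by the weighted boxes of a basis adapted to the lower central series), such that the
`n`-chains have volume at most `K * t ^ n` and such that tuples of nearby points span their straight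
simplices.  Integrating the invariant volume form over these `n`-chains gives a function of
`n + 1` points, bounded by `K * t ^ n`, which is a cocycle (an `n`-cycle in `ℝⁿ` has integral `0`)
and equals the volume of the straight simplex at small scale.  Smearing this cocycle over
the weighted box of size `t`, whose volume is `t ^ Q` up to a constant, with `Q ≥ n + 1` the
homogeneous dimension, contradicts the existence of such a bound.
-/

namespace Pool.Agent.Results.MP_6a08f9_gt.SuperEuclideanFilling

open Pool.Agent.Lib.P6a08f9

/-- Every non-abelian, connected, simply connected nilpotent Lie group of dimension `n` (written in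
exponential coordinates) has a super-Euclidean filling function `FV^{k+1}` with
`1 ≤ k ≤ n - 1`. -/
theorem result (n : ℕ) (G : ExpLieGroup n) (hnil : G.IsNilpotent)
    (hna : ∃ x y, G.mul x y ≠ G.mul y x) :
    ∃ k : ℕ, 1 ≤ k ∧ k + 1 ≤ n ∧ SuperEuclidean G k := by
  cases n with
  | zero =>
    obtain ⟨x, y, hxy⟩ := hna
    exact absurd (Subsingleton.elim _ _) hxy
  | succ m => exact exists_superEuclidean G hnil hna

end Pool.Agent.Results.MP_6a08f9_gt.SuperEuclideanFilling
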